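import Pool.Agent.Q41.SU.Stm1

/-!
# Job SU-F9: the Taylor homomorphism
-/

namespace Pool.Agent.Q58.SU

open Finset Pool.Agent.Q41.SU

universe u

section

variable {k E : Type u} [Field k] [Field E] [Algebra k E]

/-- the divided iterate -/
noncomputable def dv (D : Derivation k E E) (n : ℕ) (x : E) : E :=
  (n.factorial : E)⁻¹ * (D^[n]) x

variable (k E) in
lemma charE [CharZero k] : CharZero E := by
  constructor
  intro a b h
  have : algebraMap k E (a : k) = algebraMap k E (b : k) := by simpa using h
  have := (algebraMap k E).injective this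
  exact_mod_cast this

lemma dv_succ [CharZero E] (D : Derivation k E E) (n : ℕ) (x : E) :
    ((n : E) + 1) * dv D (n + 1) x = dv D n (D x) := by
  unfold dv
  rw [Nat.factorial_succ, Function.iterate_succ_apply]
  have h1 : ((n : E) + 1) ≠ 0 := by exact_mod_cast Nat.succ_ne_zero n
  have h2 : ((n.factorial : ℕ) : E) ≠ 0 := by exact_mod_cast Nat.factorial_ne_zero n
  push_cast
  field_simp

lemma dv_add (D : Derivation k E E) (n : ℕ) (x y : E) :
    dv D n (x + y) = dv D n x + dv D n y := by
  unfold dv
  have : ∀ (n : ℕ) (x y : E), (D^[n]) (x + y) = (D^[n]) x + (D^[n]) y := by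
    intro n
    induction n with
    | zero => intro x y; simp
    | succ n ih => intro x y; simp only [Function.iterate_succ_apply, map_add, ih]
  rw [this]
  ring

lemma dv_mul [CharZero E] (D : Derivation k E E) (n : ℕ) : ∀ x y : E,
    dv D n (x * y) = ∑ p ∈ antidiagonal n, dv D p.1 x * dv D p.2 y := by
  induction n with
  | zero => intro x y; simp [dv]
  | succ n ih =>
    intro x y
    have h1 : ((n : E) + 1) ≠ 0 := by exact_mod_cast Nat.succ_ne_zero n
    apply mul_left_cancel₀ h1
    rw [dv_succ, Derivation.leibniz, smul_eq_mul, smul_eq_mul, dv_add, ih, ih]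
    have e1 : ((n : E) + 1) * ∑ p ∈ antidiagonal (n + 1), dv D p.1 x * dv D p.2 y =
        (∑ p ∈ antidiagonal (n + 1), (p.2 : E) * (dv D p.1 x * dv D p.2 y)) +
        ∑ p ∈ antidiagonal (n + 1), (p.1 : E) * (dv D p.1 x * dv D p.2 y) := by
      rw [mul_sum, ← sum_add_distrib]
      refine sum_congr rfl fun p hp => ?_
      have : p.1 + p.2 = n + 1 := mem_antidiagonal.mp hp
      have h : (p.1 : E) + p.2 = n + 1 := by exact_mod_cast this
      rw [← h]; ring
    rw [e1, Finset.Nat.sum_antidiagonal_succ', Finset.Nat.sum_antidiagonal_succ]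
    simp only [Nat.cast_zero, zero_mul, zero_add, Nat.cast_add, Nat.cast_one]
    congr 1
    · refine sum_congr rfl fun p _ => ?_
      rw [← dv_succ]; ring
    · rw [Finset.sum_congr rfl (fun p _ => by rw [← dv_succ] :
        ∀ p ∈ antidiagonal n, dv D p.1 y * dv D p.2 (D x) =
          dv D p.1 y * (((p.2 : E) + 1) * dv D (p.2 + 1) x))]
      rw [← Finset.Nat.sum_antidiagonal_swap]
      refine sum_congr rfl fun p _ => ?_
      simp only [Prod.fst_swap, Prod.snd_swap]
      ring

end

/-- (F9) -/
theorem s_tay : S_tay.{u} := by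
  intro k E _ _ _ _ t D hD
  have : CharZero E := charE k E
  have hc : ∀ (x : E) (n : ℕ), PowerSeries.coeff n (tay D x) = dv D n x := by
    intro x n
    simp [tay, dv]
  have halg : ∀ (r : k) (n : ℕ), dv D n (algebraMap k E r) =
      PowerSeries.coeff n (algebraMap k (PowerSeries E) r) := by
    intro r n
    rw [PowerSeries.algebraMap_apply, PowerSeries.coeff_C]
    rcases Nat.eq_zero_or_pos n with rfl | hn
    · simp [dv]
    · rw [if_neg hn.ne']
      obtain ⟨m, rfl⟩ := Nat.exists_eq_succ_of_ne_zero hn.ne'
      have h0 : ∀ m : ℕ, (D^[m]) (0 : E) = 0 := by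
        intro m
        induction m with
        | zero => rfl
        | succ m ih => rw [Function.iterate_succ_apply, map_zero, ih]
      simp [dv, Function.iterate_succ_apply, h0]
  refine ⟨{
    toFun := tay D
    map_one' := ?_
    map_mul' := ?_
    map_zero' := ?_
    map_add' := ?_
    commutes' := ?_ }, fun x => rfl, ?_⟩
  · ext n
    have := halg 1 n
    rw [hc, ← map_one (algebraMap k E), this]
    simp
  · intro x y
    ext n
    rw [hc, PowerSeries.coeff_mul, dv_mul]
    simp [hc]
  · ext n
    have := halg 0 n
    rw [hc, ← map_zero (algebraMap k E), this]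
    simp
  · intro x y
    ext n
    rw [hc, map_add, hc, hc, dv_add]
  · intro r
    ext n
    rw [hc, halg]
  · show tay D t = _
    ext n
    rw [hc, map_add, PowerSeries.coeff_C, PowerSeries.coeff_X]
    match n with
    | 0 => simp [dv]
    | 1 => simp [dv, hD]
    | m + 2 =>
      have h0 : ∀ m : ℕ, (D^[m]) (0 : E) = 0 := by
        intro m
        induction m with
        | zero => rfl
        | succ m ih => rw [Function.iterate_succ_apply, map_zero, ih]
      simp [dv, Function.iterate_succ_apply, hD, h0]

end Pool.Agent.Q58.SU
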