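import Pool.Agent.Q41.SU.Stm4

/-!
# Job SU-L3: the centroid
-/

namespace Pool.Agent.Q58.SU

open Finset Pool.Agent.Q41.SU
open Pool.Agent.W277.UH (q₀)

section

variable {J : Type} [Fintype J] [DecidableEq J]

lemma colour {q : ℕ} (χ : J → Fin q) (T : Finset J) :
    (T.card : ℝ) ^ 2 ≤ q * ∑ l ∈ T, ((T.filter fun m => χ m = χ l).card : ℝ) := by
  have h1 : (T.card : ℝ) = ∑ c : Fin q, ((T.filter fun m => χ m = c).card : ℝ) := by
    rw [Finset.card_eq_sum_card_fiberwise (f := χ) (t := univ) (fun x _ => by simp)]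
    push_cast
    rfl
  have h2 : ∑ l ∈ T, ((T.filter fun m => χ m = χ l).card : ℝ) =
      ∑ c : Fin q, ((T.filter fun m => χ m = c).card : ℝ) ^ 2 := by
    rw [← Finset.sum_fiberwise_of_maps_to (s := T) (t := univ) (g := χ) (fun x _ => mem_univ _)]
    refine sum_congr rfl fun c _ => ?_
    rw [Finset.sum_congr rfl (g := fun _ => ((T.filter fun m => χ m = c).card : ℝ))]
    · rw [sum_const, nsmul_eq_mul, sq]
    · intro l hl
      rw [(mem_filter.mp hl).2]
  rw [h1, h2]
  have := sq_sum_le_card_mul_sum_sq (s := (univ : Finset (Fin q)))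
    (f := fun c => ((T.filter fun m => χ m = c).card : ℝ))
  simpa using this

/-- the choice of the level -/
lemma choice (o : J → J → ℤ) (h0 : ∀ l m, l ≠ m → 0 ≤ o l m) (hN : 2 ≤ Fintype.card J) :
    ∃ (h : ℕ) (l₀ : J), Fintype.card J < 2 * cnt o h l₀ ∧
      ∀ l, 2 * cnt o (h + 1) l ≤ Fintype.card J := by
  classical
  have hne : Nonempty J := Fintype.card_pos_iff.mp (by omega)
  obtain ⟨j⟩ := hne
  -- a bound
  obtain ⟨B, hB⟩ : ∃ B : ℕ, ∀ l m, o l m < B := by
    refine ⟨(∑ l, ∑ m, (o l m).toNat) + 1, fun l m => ?_⟩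
    have h1 : (o l m).toNat ≤ ∑ m, (o l m).toNat :=
      single_le_sum (f := fun m => (o l m).toNat) (fun _ _ => Nat.zero_le _) (mem_univ m)
    have h2 : ∑ m, (o l m).toNat ≤ ∑ l, ∑ m, (o l m).toNat :=
      single_le_sum (f := fun l => ∑ m, (o l m).toNat) (fun _ _ => Nat.zero_le _) (mem_univ l)
    have h3 : o l m ≤ (o l m).toNat := Int.self_le_toNat _
    generalize (∑ l, ∑ m, (o l m).toNat) = S at *
    generalize (∑ m, (o l m).toNat) = S' at *
    omega
  have hbig : ∀ l, 2 * cnt o B l ≤ Fintype.card J := by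
    intro l
    have : cnt o B l = 1 := by
      unfold cnt
      rw [card_eq_one]
      refine ⟨l, ?_⟩
      ext m
      simp only [mem_filter, mem_univ, true_and, mem_singleton]
      constructor
      · rintro (h | h)
        · exact h
        · exact absurd (hB l m) (not_lt.mpr h)
      · intro h
        exact Or.inl h
    omega
  -- the least level at which all the classes are small
  have hex : ∃ B : ℕ, ∀ l, 2 * cnt o B l ≤ Fintype.card J := ⟨B, hbig⟩
  let m := Nat.find hex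
  have hm : ∀ l, 2 * cnt o m l ≤ Fintype.card J := Nat.find_spec hex
  have hm0 : m ≠ 0 := by
    intro h
    have := hm j
    rw [h] at this
    have h2 : cnt o 0 j = Fintype.card J := by
      unfold cnt
      rw [← Finset.card_univ]
      congr 1
      ext x
      simp only [mem_filter, mem_univ, true_and, iff_true]
      by_cases hx : x = j
      · exact Or.inl hx
      · exact Or.inr (by simpa using h0 j x (Ne.symm hx))
    omega
  obtain ⟨h, hh⟩ := Nat.exists_eq_succ_of_ne_zero hm0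
  have hnot := Nat.find_min hex (m := h) (by change h < m; omega)
  push Not at hnot
  obtain ⟨l₀, hl₀⟩ := hnot
  refine ⟨h, l₀, hl₀, ?_⟩
  intro l
  have := hm l
  rw [hh] at this
  simpa using this

/-- the distance to the centre -/
def tu (o : J → J → ℤ) (h : ℕ) (l₀ l : J) : ℤ := if l = l₀ then (h : ℤ) else min (h : ℤ) (o l l₀)

lemma blow_tu (o : J → J → ℤ) (h : ℕ) (l₀ l m : J) :
    blow o h l₀ l m = o l m + h - tu o h l₀ l - tu o h l₀ m := rfl

variable {o : J → J → ℤ} (hs : ∀ l m, o l m = o m l) (h0 : ∀ l m, l ≠ m → 0 ≤ o l m)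
  (hu : ∀ l m n, l ≠ m → m ≠ n → l ≠ n → min (o l m) (o m n) ≤ o l n)

include hs h0 hu

lemma blow_nonneg (h : ℕ) (l₀ l m : J) (hlm : l ≠ m) : 0 ≤ blow o h l₀ l m := by
  rw [blow_tu]
  unfold tu
  by_cases hl : l = l₀
  · subst hl
    rw [if_pos rfl, if_neg (Ne.symm hlm), hs m l]
    have := min_le_right (h : ℤ) (o l m)
    omega
  · by_cases hm : m = l₀
    · subst hm
      rw [if_pos rfl, if_neg hl]
      have := min_le_right (h : ℤ) (o l m)
      omega
    · rw [if_neg hl, if_neg hm]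
      have h1 := hu l l₀ m hl (Ne.symm hm) hlm
      rw [hs l₀ m] at h1
      have := h0 l m hlm
      omega

lemma tu_bd (h : ℕ) (l₀ l : J) : 0 ≤ tu o h l₀ l ∧ tu o h l₀ l ≤ h := by
  unfold tu
  by_cases hl : l = l₀
  · rw [if_pos hl]; omega
  · rw [if_neg hl]
    have := h0 l l₀ hl
    omega

/-- the blown up orders between the inside and the outside vanish -/
lemma blow_out (h : ℕ) (l₀ l m : J) (hl : l = l₀ ∨ (h : ℤ) ≤ o l₀ l)
    (hm : ¬ (m = l₀ ∨ (h : ℤ) ≤ o l₀ m)) : blow o h l₀ l m = 0 := by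
  push Not at hm
  obtain ⟨hm1, hm2⟩ := hm
  rw [blow_tu]
  unfold tu
  rw [if_neg hm1]
  have e1 : o m l₀ = o l₀ m := hs _ _
  by_cases h1 : l = l₀
  · subst h1
    rw [if_pos rfl]
    omega
  · rw [if_neg h1]
    have hl' : (h : ℤ) ≤ o l₀ l := by
      rcases hl with h2 | h2
      · exact absurd h2 h1
      · exact h2
    have hlm : l ≠ m := by
      rintro rfl
      omega
    have a1 := hu m l₀ l hm1 (Ne.symm h1) (Ne.symm hlm)
    have a2 := hu m l l₀ (Ne.symm hlm) h1 hm1
    rw [hs m l] at a1 a2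
    rw [hs l l₀] at a2 ⊢
    omega

lemma blow_in (h : ℕ) (l₀ l m : J) (hl : l = l₀ ∨ (h : ℤ) ≤ o l₀ l)
    (hm : (m = l₀ ∨ (h : ℤ) ≤ o l₀ m)) (hlm : l ≠ m) :
    blow o h l₀ l m = o l m - h ∧ (h : ℤ) ≤ o l m := by
  rw [blow_tu]
  unfold tu
  by_cases h1 : l = l₀
  · subst h1
    rw [if_pos rfl, if_neg (Ne.symm hlm)]
    rcases hm with h2 | h2
    · exact absurd h2.symm hlm
    · rw [hs m l]
      omega
  · rcases hl with h2 | h2
    · exact absurd h2 h1
    · rw [if_neg h1]
      by_cases h3 : m = l₀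
      · subst h3
        rw [if_pos rfl]
        rw [hs m l] at h2
        omega
      · rcases hm with h4 | h4
        · exact absurd h4 h3
        · rw [if_neg h3]
          have a1 := hu l l₀ m h1 (Ne.symm h3) hlm
          rw [hs l l₀, hs m l₀]
          rw [hs l l₀] at a1
          omega

lemma cnt_blow (h : ℕ) (l₀ : J) (h1 : Fintype.card J < 2 * cnt o h l₀)
    (h2 : ∀ l, 2 * cnt o (h + 1) l ≤ Fintype.card J) (l : J) :
    2 * cnt (blow o h l₀) 1 l ≤ Fintype.card J := by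
  by_cases hl : l = l₀ ∨ (h : ℤ) ≤ o l₀ l
  · refine le_trans ?_ (h2 l)
    unfold cnt
    apply Nat.mul_le_mul_left
    apply card_le_card
    intro m
    simp only [mem_filter, mem_univ, true_and, Nat.cast_one]
    rintro (hm | hm)
    · exact Or.inl hm
    · by_cases hlm : m = l
      · exact Or.inl hlm
      · right
        by_cases hmC : m = l₀ ∨ (h : ℤ) ≤ o l₀ m
        · have := (blow_in hs h0 hu h l₀ l m hl hmC (Ne.symm hlm)).1
          push_cast
          omega
        · have := blow_out hs h0 hu h l₀ l m hl hmC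
          omega
  · have hc : cnt (blow o h l₀) 1 l + cnt o h l₀ ≤ Fintype.card J := by
      unfold cnt
      rw [← card_union_of_disjoint]
      · exact card_le_univ _
      · rw [disjoint_left]
        intro m
        simp only [mem_filter, mem_univ, true_and, Nat.cast_one]
        intro hm hmC
        rcases hm with hm | hm
        · subst hm
          exact hl hmC
        · have := blow_out hs h0 hu h l₀ m l hmC hl
          have e : blow o h l₀ l m = blow o h l₀ m l := by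
            rw [blow_tu, blow_tu, hs l m]; ring
          omega
    omega

omit hs h0 hu in
lemma sum_pair (f : J → ℝ) :
    ∑ l, ∑ m ∈ univ.erase l, (f l + f m) = 2 * ((Fintype.card J : ℝ) - 1) * ∑ l, f l := by
  have h1 : ∀ l : J, ∑ m ∈ univ.erase l, (f l + f m) =
      ((Fintype.card J : ℝ) - 2) * f l + ∑ m, f m := by
    intro l
    have h2 := Finset.add_sum_erase univ (fun m => f l + f m) (mem_univ l)
    have h3 : ∑ m, (f l + f m) = (Fintype.card J : ℝ) * f l + ∑ m, f m := by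
      rw [sum_add_distrib, sum_const, nsmul_eq_mul, card_univ]
    rw [h3] at h2
    linarith
  simp_rw [h1]
  rw [sum_add_distrib, ← mul_sum, sum_const, nsmul_eq_mul, card_univ]
  ring

omit hs h0 hu in
lemma sub_sum (f : J → J → ℝ) (hf : ∀ l m, l ≠ m → 0 ≤ f l m) (S : Finset J) (T : J → Finset J)
    (hT : ∀ l, l ∉ T l) : ∑ l ∈ S, ∑ m ∈ T l, f l m ≤ ∑ l, ∑ m ∈ univ.erase l, f l m := by
  have h1 : ∀ l, ∑ m ∈ T l, f l m ≤ ∑ m ∈ univ.erase l, f l m := by
    intro l
    apply sum_le_sum_of_subset_of_nonneg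
    · intro m hm
      rw [mem_erase]
      refine ⟨?_, mem_univ _⟩
      rintro rfl
      exact hT _ hm
    · intro m hm _
      exact hf l m (Ne.symm (mem_erase.mp hm).1)
  have h2 : ∀ l, 0 ≤ ∑ m ∈ univ.erase l, f l m := by
    intro l
    apply sum_nonneg
    intro m hm
    exact hf l m (Ne.symm (mem_erase.mp hm).1)
  calc ∑ l ∈ S, ∑ m ∈ T l, f l m ≤ ∑ l ∈ S, ∑ m ∈ univ.erase l, f l m :=
        sum_le_sum fun l _ => h1 l
    _ ≤ _ := sum_le_sum_of_subset_of_nonneg (subset_univ _) fun l _ _ => h2 l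

omit hs h0 hu in
/-- the estimate -/
lemma core (d : ℕ) (hd : 2 ≤ d) (κ θ Q : ℝ) (hκ : κ = 1 / (8 * d * (d + 1)))
    (hθ : θ = κ / 112) {q : ℕ} (hQ : Q = q + 1) (hN : 8 ≤ Fintype.card J)
    (hN1 : 2 * Q / θ ≤ Fintype.card J)
    (o' : J → J → ℝ) (of : J → J → ℝ) (τ A : J → ℝ) (R : ℝ) (hR : 1 ≤ R) (H : ℝ) (hH : 0 ≤ H)
    (h0' : ∀ l m, l ≠ m → 0 ≤ o' l m) (h00 : ∀ l m, l ≠ m → 0 ≤ of l m)
    (hos : ∀ l m, of l m = of m l)
    (heq : ∀ l m, o' l m = of l m + H - τ l - τ m) (hτ : ∀ l, 0 ≤ τ l)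
    (C : Finset J) (hC : Fintype.card J < 2 * C.card) (hCo : ∀ l ∈ C, ∀ m ∈ C, l ≠ m → H ≤ of l m)
    (hA : ∀ l, 0 ≤ A l ∧ A l ≤ R / ((d : ℝ) - 1)) (χ : J → Fin q)
    (hχ : ∀ l m, l ≠ m → χ l = χ m → R / (8 * d * (d + 1)) ≤
      of l m - 2 * A l + R / (d * ((d : ℝ) - 1)))
    (hG : ∑ l, ∑ m ∈ univ.erase l, (of l m - A l - A m + R / (d * ((d : ℝ) - 1))) ≤
        κ / 16 * (Fintype.card J : ℝ) ^ 2 * R) :
    κ * θ ^ 2 / (4 * Q) * (Fintype.card J : ℝ) ^ 2 * R ≤ ∑ l, ∑ m ∈ univ.erase l, o' l m := by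
  by_contra hS
  push Not at hS
  have hd' : (2 : ℝ) ≤ d := by exact_mod_cast hd
  have hκ0 : 0 < κ := by rw [hκ]; positivity
  have hκ1 : κ ≤ 1 := by
    rw [hκ, div_le_one (by positivity)]
    nlinarith
  have hθ0 : 0 < θ := by rw [hθ]; positivity
  have hQ0 : 1 ≤ Q := by rw [hQ]; linarith [Nat.cast_nonneg (α := ℝ) q]
  have hN8 : (8 : ℝ) ≤ Fintype.card J := by exact_mod_cast hN
  set N : ℝ := (Fintype.card J : ℝ) with hNdef
  set g : ℝ := R / (d * ((d : ℝ) - 1)) with hg
  have hg0 : 0 ≤ g := by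
    rw [hg]
    apply div_nonneg (by linarith)
    nlinarith
  have hAR : ∀ l, A l ≤ R := by
    intro l
    refine (hA l).2.trans ?_
    rw [div_le_iff₀ (by linarith)]
    nlinarith
  have hsumA : ∑ l, A l ≤ N * R := by
    calc ∑ l, A l ≤ ∑ _l : J, R := sum_le_sum fun l _ => hAR l
      _ = N * R := by rw [sum_const, nsmul_eq_mul, card_univ]
  have hsumA0 : 0 ≤ ∑ l, A l := sum_nonneg fun l _ => (hA l).1
  -- the expansion of the energy
  have hGe : ∑ l, ∑ m ∈ univ.erase l, (of l m - A l - A m + g) =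
      (∑ l, ∑ m ∈ univ.erase l, of l m) - 2 * (N - 1) * ∑ l, A l +
        ∑ l : J, ∑ m ∈ univ.erase l, g := by
    rw [← sum_pair A, ← sum_sub_distrib, ← sum_add_distrib]
    refine sum_congr rfl fun l _ => ?_
    rw [← sum_sub_distrib, ← sum_add_distrib]
    refine sum_congr rfl fun m _ => ?_
    ring
  have hgs : 0 ≤ ∑ l : J, ∑ m ∈ univ.erase l, g :=
    sum_nonneg fun l _ => sum_nonneg fun m _ => hg0
  -- the size of the inner class
  have hc2 : N + 1 ≤ 2 * (C.card : ℝ) := by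
    rw [hNdef]; exact_mod_cast hC
  have hin : (C.card : ℝ) * ((C.card : ℝ) - 1) * H ≤ ∑ l, ∑ m ∈ univ.erase l, of l m := by
    refine le_trans ?_ (sub_sum of h00 C (fun l => C.erase l) (fun l => notMem_erase l C))
    have h1 : ∀ l ∈ C, ((C.card : ℝ) - 1) * H ≤ ∑ m ∈ C.erase l, of l m := by
      intro l hl
      have h2 : ∑ m ∈ C.erase l, H ≤ ∑ m ∈ C.erase l, of l m :=
        sum_le_sum fun m hm => hCo l hl m (mem_erase.mp hm).2 (Ne.symm (mem_erase.mp hm).1)
      rw [sum_const, nsmul_eq_mul, card_erase_of_mem hl] at h2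
      have h3 : 1 ≤ C.card := card_pos.mpr ⟨l, hl⟩
      push_cast [Nat.cast_sub h3] at h2
      exact h2
    calc (C.card : ℝ) * ((C.card : ℝ) - 1) * H = ∑ _l ∈ C, ((C.card : ℝ) - 1) * H := by
          rw [sum_const, nsmul_eq_mul]; ring
      _ ≤ _ := sum_le_sum h1
  have hH24 : H ≤ 24 * R := by
    by_contra hcon
    push Not at hcon
    have h1 : N ^ 2 / 8 ≤ (C.card : ℝ) * ((C.card : ℝ) - 1) := by nlinarith
    have h2 : N ^ 2 / 8 * H ≤ (C.card : ℝ) * ((C.card : ℝ) - 1) * H :=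
      mul_le_mul_of_nonneg_right h1 hH
    have h3 : 2 * (N - 1) * ∑ l, A l ≤ 2 * N * (N * R) := by
      have : 2 * (N - 1) * ∑ l, A l ≤ 2 * N * ∑ l, A l :=
        mul_le_mul_of_nonneg_right (by linarith) hsumA0
      refine this.trans ?_
      apply mul_le_mul_of_nonneg_left hsumA (by linarith)
    have h4 : N ^ 2 / 8 * (24 * R) < N ^ 2 / 8 * H := by
      apply mul_lt_mul_of_pos_left hcon; positivity
    have h5 : κ / 16 * N ^ 2 * R ≤ N ^ 2 * R := by
      have : 0 ≤ N ^ 2 * R := by positivity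
      nlinarith
    rw [hGe] at hG
    have h6 : 0 < N ^ 2 * R := by positivity
    nlinarith
  -- the weights
  set w : J → ℝ := fun l => A l - τ l + (H - g) / 2 with hw
  have hid : ∑ l, ∑ m ∈ univ.erase l, (of l m - A l - A m + g) =
      (∑ l, ∑ m ∈ univ.erase l, o' l m) - 2 * (N - 1) * ∑ l, w l := by
    rw [← sum_pair w, ← sum_sub_distrib]
    refine sum_congr rfl fun l _ => ?_
    rw [← sum_sub_distrib]
    refine sum_congr rfl fun m _ => ?_
    rw [heq l m, hw]
    ring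
  set T : Finset J := univ.filter fun l => -(κ * R / 4) < w l with hT
  have hTc : (T.card : ℝ) < θ * N := by
    by_contra hcon
    push Not at hcon
    have h1 : ∀ l ∈ T, ∀ m ∈ T, l ≠ m → χ l = χ m → κ * R / 2 ≤ o' l m := by
      intro l hl m hm hlm hc
      have a1 := hχ l m hlm hc
      have a2 := hχ m l (Ne.symm hlm) hc.symm
      rw [hos m l] at a2
      have a3 : R / (8 * d * (d + 1)) = κ * R := by rw [hκ]; ring
      rw [a3] at a1 a2
      have b1 : -(κ * R / 4) < w l := (mem_filter.mp hl).2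
      have b2 : -(κ * R / 4) < w m := (mem_filter.mp hm).2
      rw [heq l m]
      simp only [hw] at b1 b2
      linarith
    have h2 := sub_sum o' h0' T (fun l => (T.filter fun m => χ m = χ l).erase l)
      (fun l => notMem_erase l _)
    have h3 : ∀ l ∈ T, (κ * R / 2) * (((T.filter fun m => χ m = χ l).card : ℝ) - 1) ≤
        ∑ m ∈ (T.filter fun m => χ m = χ l).erase l, o' l m := by
      intro l hl
      have h4 : ∑ _m ∈ (T.filter fun m => χ m = χ l).erase l, κ * R / 2 ≤
          ∑ m ∈ (T.filter fun m => χ m = χ l).erase l, o' l m := by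
        refine sum_le_sum fun m hm => ?_
        have h5 := mem_erase.mp hm
        have h6 := mem_filter.mp h5.2
        exact h1 l hl m h6.1 (Ne.symm h5.1) h6.2.symm
      have hlm : l ∈ T.filter fun m => χ m = χ l := mem_filter.mpr ⟨hl, rfl⟩
      rw [sum_const, nsmul_eq_mul, card_erase_of_mem hlm] at h4
      have h3 : 1 ≤ (T.filter fun m => χ m = χ l).card := card_pos.mpr ⟨l, hlm⟩
      push_cast [Nat.cast_sub h3] at h4
      linarith
    have h4 : (κ * R / 2) * (∑ l ∈ T, ((T.filter fun m => χ m = χ l).card : ℝ) - T.card) ≤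
        ∑ l, ∑ m ∈ univ.erase l, o' l m := by
      refine le_trans ?_ ((sum_le_sum h3).trans h2)
      rw [← mul_sum, sum_sub_distrib, sum_const, nsmul_eq_mul, mul_one]
    have h5 := colour χ T
    set n : ℝ := (T.card : ℝ) with hn
    set sg : ℝ := ∑ l ∈ T, ((T.filter fun m => χ m = χ l).card : ℝ) with hsg
    have hsg0 : 0 ≤ sg := sum_nonneg fun _ _ => Nat.cast_nonneg _
    have h6 : n ^ 2 ≤ Q * sg := by
      have : Q * sg = q * sg + sg := by rw [hQ]; ring
      linarith
    have h7 : 2 * Q ≤ n := by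
      have : 2 * Q ≤ θ * N := by
        rw [div_le_iff₀ hθ0] at hN1
        linarith
      linarith
    have h8 : n ^ 2 / (2 * Q) ≤ sg - n := by
      rw [div_le_iff₀ (by positivity)]
      have hn0 : 0 ≤ n := by linarith
      have e1 : 2 * Q * n ≤ n * n := mul_le_mul_of_nonneg_right h7 hn0
      linarith
    have h9 : κ * θ ^ 2 / (4 * Q) * N ^ 2 * R ≤ (κ * R / 2) * (n ^ 2 / (2 * Q)) := by
      have e1 : (κ * R / 2) * (n ^ 2 / (2 * Q)) = κ * R * n ^ 2 / (4 * Q) := by
        field_simp; ring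
      have e2 : κ * θ ^ 2 / (4 * Q) * N ^ 2 * R = κ * R * (θ * N) ^ 2 / (4 * Q) := by
        field_simp
      rw [e1, e2]
      apply div_le_div_of_nonneg_right _ (by positivity)
      apply mul_le_mul_of_nonneg_left _ (by positivity)
      have : 0 ≤ θ * N := by positivity
      exact pow_le_pow_left₀ this hcon 2
    have h10 : (κ * R / 2) * (n ^ 2 / (2 * Q)) ≤ (κ * R / 2) * (sg - n) :=
      mul_le_mul_of_nonneg_left h8 (by positivity)
    linarith
  have hws : ∑ l, w l ≤ -(κ * N * R / 8) := by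
    have h1 : ∀ l, w l ≤ -(κ * R / 4) + if l ∈ T then 14 * R else 0 := by
      intro l
      by_cases hl : l ∈ T
      · rw [if_pos hl]
        simp only [hw]
        have e1 := hAR l
        have e2 := hτ l
        have e3 : κ * R ≤ R := mul_le_of_le_one_left (by linarith) hκ1
        linarith
      · rw [if_neg hl, add_zero]
        by_contra hcon
        push Not at hcon
        exact hl (mem_filter.mpr ⟨mem_univ _, hcon⟩)
    calc ∑ l, w l ≤ ∑ l, (-(κ * R / 4) + if l ∈ T then 14 * R else 0) :=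
          sum_le_sum fun l _ => h1 l
      _ = -(κ * R / 4) * N + 14 * R * T.card := by
          rw [sum_add_distrib, sum_const, nsmul_eq_mul, card_univ, ← hNdef]
          rw [sum_ite_mem, univ_inter, sum_const, nsmul_eq_mul]
          ring
      _ ≤ -(κ * R / 4) * N + 14 * R * (θ * N) := by
          have : 14 * R * T.card ≤ 14 * R * (θ * N) :=
            mul_le_mul_of_nonneg_left hTc.le (by positivity)
          linarith
      _ = _ := by rw [hθ]; ring
  rw [hid] at hG
  have hS0 : 0 ≤ ∑ l, ∑ m ∈ univ.erase l, o' l m :=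
    sum_nonneg fun l _ => sum_nonneg fun m hm => h0' l m (Ne.symm (mem_erase.mp hm).1)
  have h1 : κ * N ^ 2 * R / 8 ≤ -(2 * (N - 1) * ∑ l, w l) := by
    have h2 : κ * N * R / 8 ≤ -∑ l, w l := by linarith
    have h3 : 2 * (N - 1) * (κ * N * R / 8) ≤ 2 * (N - 1) * (-∑ l, w l) :=
      mul_le_mul_of_nonneg_left h2 (by linarith)
    have h4 : κ * N ^ 2 * R / 8 ≤ 2 * (N - 1) * (κ * N * R / 8) := by
      have e1 : 0 ≤ κ * N * R / 8 := by positivity
      have e2 : κ * N ^ 2 * R / 8 = N * (κ * N * R / 8) := by ring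
      rw [e2]
      exact mul_le_mul_of_nonneg_right (by linarith) e1
    linarith
  have h2 : 0 < κ * N ^ 2 * R := by positivity
  linarith

end

/-- (L3) -/
theorem s_e2 : S_e2 := by
  intro d hd
  have hd' : (2 : ℝ) ≤ d := by exact_mod_cast hd
  obtain ⟨κ, hκ⟩ : ∃ κ : ℝ, κ = 1 / (8 * d * (d + 1)) := ⟨_, rfl⟩
  obtain ⟨θ, hθ⟩ : ∃ θ : ℝ, θ = κ / 112 := ⟨_, rfl⟩
  obtain ⟨Q, hQ⟩ : ∃ Q : ℝ, Q = (q₀ d : ℝ) + 1 := ⟨_, rfl⟩
  have hκ0 : 0 < κ := by rw [hκ]; positivity
  have hκ1 : κ ≤ 1 := by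
    rw [hκ, div_le_one (by positivity)]
    nlinarith
  have hθ0 : 0 < θ := by rw [hθ]; positivity
  have hQ0 : 0 < Q := by rw [hQ]; positivity
  obtain ⟨N₁, hN1⟩ := exists_nat_ge (2 * Q / θ)
  refine ⟨N₁ + 8, κ / 16, κ * θ ^ 2 / (4 * Q), by positivity, by linarith, by positivity, ?_⟩
  intro J _ _ o hs h0 hu A R hA χ hχ hN
  obtain ⟨h, l₀, c1, c2⟩ := choice o h0 (by omega)
  refine ⟨h, l₀, fun l m hlm => blow_nonneg hs h0 hu h l₀ l m hlm,
    cnt_blow hs h0 hu h l₀ c1 c2, ?_⟩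
  intro hR hG
  refine core d hd κ θ Q hκ hθ (q := q₀ d) hQ (by omega) ?_ (fun l m => (blow o h l₀ l m : ℝ))
    (fun l m => (o l m : ℝ)) (fun l => (tu o h l₀ l : ℝ)) A R (by exact_mod_cast hR) h
    (Nat.cast_nonneg _) ?_ ?_ ?_ ?_ ?_ (univ.filter fun m => m = l₀ ∨ (h : ℤ) ≤ o l₀ m) ?_ ?_ hA χ
    (hχ hR) hG
  · refine hN1.trans ?_
    exact_mod_cast (by omega : N₁ ≤ Fintype.card J)
  · intro l m hlm
    exact_mod_cast blow_nonneg hs h0 hu h l₀ l m hlm
  · intro l m hlm
    exact_mod_cast h0 l m hlm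
  · intro l m
    simp only [hs l m]
  · intro l m
    simp only [blow_tu]
    push_cast
    ring
  · intro l
    exact_mod_cast (tu_bd hs h0 hu h l₀ l).1
  · exact c1
  · intro l hl m hm hlm
    have := (blow_in hs h0 hu h l₀ l m (mem_filter.mp hl).2 (mem_filter.mp hm).2 hlm).2
    exact_mod_cast this

end Pool.Agent.Q58.SU
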