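import Pool.Agent.Q41.SU.Stm4

/-!
# Job SU-L2: rescaling the norm
-/

namespace Pool.Agent.Q58.SU

open Finset Pool.Agent.Q41.SU

universe u

/-- the rescaled absolute value -/
noncomputable def rav (Ω : Type u) [NormedField Ω] [IsUltrametricDist Ω] (c : ℝ) (hc : 0 < c) :
    AbsoluteValue Ω ℝ where
  toFun x := ‖x‖ ^ c
  map_mul' x y := by
    simp only [norm_mul]
    rw [Real.mul_rpow (norm_nonneg _) (norm_nonneg _)]
  nonneg' x := Real.rpow_nonneg (norm_nonneg _) _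
  eq_zero' x := by
    rw [Real.rpow_eq_zero (norm_nonneg _) hc.ne', norm_eq_zero]
  add_le' x y := by
    have h := IsUltrametricDist.norm_add_le_max x y
    have hx : 0 ≤ ‖x‖ ^ c := Real.rpow_nonneg (norm_nonneg _) _
    have hy : 0 ≤ ‖y‖ ^ c := Real.rpow_nonneg (norm_nonneg _) _
    rcases le_total ‖x‖ ‖y‖ with hxy | hxy
    · rw [max_eq_right hxy] at h
      have := Real.rpow_le_rpow (norm_nonneg _) h hc.le
      show ‖x + y‖ ^ c ≤ ‖x‖ ^ c + ‖y‖ ^ c
      linarith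
    · rw [max_eq_left hxy] at h
      have := Real.rpow_le_rpow (norm_nonneg _) h hc.le
      show ‖x + y‖ ^ c ≤ ‖x‖ ^ c + ‖y‖ ^ c
      linarith

/-- (L2) -/
theorem s_resc : S_resc.{u} := by
  intro Ω _ _ _ c hc
  have hn : ∀ x : WithAbs (rav Ω c hc), ‖x‖ = ‖WithAbs.ofAbs x‖ ^ c := fun x => rfl
  refine ⟨WithAbs (rav Ω c hc), inferInstance, ?_, ?_, (WithAbs.equiv (rav Ω c hc)).symm, ?_⟩
  · apply IsUltrametricDist.isUltrametricDist_of_forall_norm_add_le_max_norm
    intro x y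
    rw [hn, hn, hn]
    have h := IsUltrametricDist.norm_add_le_max (WithAbs.ofAbs x) (WithAbs.ofAbs y)
    have h2 := Real.rpow_le_rpow (norm_nonneg _) h hc.le
    rw [WithAbs.ofAbs_add]
    refine h2.trans ?_
    rcases le_total ‖WithAbs.ofAbs x‖ ‖WithAbs.ofAbs y‖ with hxy | hxy
    · rw [max_eq_right hxy]; exact le_max_right _ _
    · rw [max_eq_left hxy]; exact le_max_left _ _
  · exact IsAlgClosed.of_ringEquiv Ω _ (WithAbs.equiv (rav Ω c hc)).symm
  · intro x
    rw [hn]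
    rfl

end Pool.Agent.Q58.SU
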